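import Pool.Agent.X219.Sinf.Top
import Pool.Agent.H468R2.MA.P_T_BF
import Pool.Agent.H468R2.MA.P_T_C
import Pool.Agent.H468R2.MA.P_T_CH
import Pool.Agent.H468R2.MA.P_T_LOC
import Pool.Agent.H468R2.MA.P_T_LOC1
import Pool.Agent.H468R2.MA.P_T_SC

/-!
Borel actions of the group of permutations of `ℕ` are classified by countable structures
(Becker and Kechris).
-/

set_option autoImplicit false
set_option linter.unusedSectionVars false

open Set Filter Topology Function
open Pool.Agent.H468R2.MA (RS Iso Hm)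
open Pool.Agent.Helper281.Gr

namespace Pool.Agent.X219.Sinf

attribute [local instance] permTop permBorel borelSpace_perm polish_perm

variable {Y : Type} [MeasurableSpace Y] [StandardBorelSpace Y] [MulAction (Equiv.Perm ℕ) Y]

/-- the separating Borel sets -/
def B (Y : Type) [MeasurableSpace Y] [StandardBorelSpace Y] (i : ℕ) : Set Y :=
  {y | MeasurableSpace.mapNatBool Y y i = true}

theorem measurableSet_B (i : ℕ) : MeasurableSet (B Y i) := by
  have h1 : Measurable fun y : Y => MeasurableSpace.mapNatBool Y y i :=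
    (measurable_pi_apply i).comp (MeasurableSpace.measurable_mapNatBool Y)
  exact h1 (measurableSet_singleton true)

theorem eq_of_B {y z : Y} (h : ∀ i, y ∈ B Y i ↔ z ∈ B Y i) : y = z := by
  apply MeasurableSpace.injective_mapNatBool Y
  funext i
  have h1 := h i
  simp only [B, mem_ofPred_eq] at h1
  exact Bool.eq_iff_iff.2 h1

/-- the structure coding `y` -/
def code (y : Y) : RS (ℕ × ℕ) Prod.snd :=
  fun r a => ∃ᶠ g in residual (Equiv.Perm ℕ), g ∈ N a ∧ g⁻¹ • y ∈ B Y r.1

theorem measurable_code (hact : Measurable fun p : Equiv.Perm ℕ × Y => p.1 • p.2)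
    (r : ℕ × ℕ) (a : Fin r.2 → ℕ) : MeasurableSet {y : Y | code y r a} := by
  have h1 : Measurable fun p : Y × Equiv.Perm ℕ => p.2⁻¹ • p.1 :=
    hact.comp ((continuous_inv'.measurable.comp measurable_snd).prodMk measurable_fst)
  have h2 : MeasurableSet {p : Y × Equiv.Perm ℕ | ¬ (p.2⁻¹ • p.1 ∈ B Y r.1)} :=
    (h1 (measurableSet_B r.1)).compl
  have h3 := (measurableSet_gen (P := fun y g => ¬ (g⁻¹ • y ∈ B Y r.1)) h2 (isOpen_N a)).compl
  have h4 : {y : Y | code y r a} =
      {x : Y | ∀ᶠ g in residual (Equiv.Perm ℕ), g ∈ N a → ¬ (g⁻¹ • x ∈ B Y r.1)}ᶜ := by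
    ext y
    simp only [mem_ofPred_eq, mem_compl_iff, code, Filter.Frequently, not_and]
  rw [h4]
  exact h3

theorem code_smul (h : Equiv.Perm ℕ) (y : Y) (r : ℕ × ℕ) (a : Fin r.2 → ℕ) :
    code (h • y) r (fun s => h (a s)) ↔ code y r a := by
  have key : ∀ (h : Equiv.Perm ℕ) (y : Y) (a : Fin r.2 → ℕ),
      code y r a → code (h • y) r (fun s => h (a s)) := by
    intro h y a hc hn
    apply hc
    have ho : IsOpenMap fun g : Equiv.Perm ℕ => h * g := by
      intro U hU
      have : (fun g : Equiv.Perm ℕ => h * g) '' U = (fun g : Equiv.Perm ℕ => h⁻¹ * g) ⁻¹' U := by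
        ext g
        constructor
        · rintro ⟨u, hu, rfl⟩
          show h⁻¹ * (h * u) ∈ U
          rwa [inv_mul_cancel_left]
        · intro hg
          exact ⟨_, hg, mul_inv_cancel_left _ _⟩
      rw [this]
      exact hU.preimage (continuous_mul_left' _)
    have ht := (tendsto_residual_of_isOpenMap (continuous_mul_left' h) ho).eventually hn
    filter_upwards [ht] with g hg
    rintro ⟨h1, h2⟩
    apply hg
    refine ⟨fun j => ?_, ?_⟩
    · show h (g j) = h (a j)
      rw [h1 j]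
    · rw [mul_inv_rev, mul_smul, inv_smul_smul]
      exact h2
  refine ⟨fun hc => ?_, key h y a⟩
  have := key h⁻¹ (h • y) _ hc
  simpa using this

theorem eq_of_code (hact : Measurable fun p : Equiv.Perm ℕ × Y => p.1 • p.2) {y z : Y}
    (h : ∀ r a, code z r a ↔ code y r a) : y = z := by
  have hm : ∀ (w : Y) (i : ℕ), MeasurableSet {g : Equiv.Perm ℕ | g⁻¹ • w ∈ B Y i} := by
    intro w i
    have h1 : Measurable fun g : Equiv.Perm ℕ => g⁻¹ • w :=
      hact.comp (continuous_inv'.measurable.prodMk measurable_const)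
    exact h1 (measurableSet_B i)
  have key : ∀ (y z : Y), (∀ r a, code z r a ↔ code y r a) → ∀ i,
      ∀ᶠ g in residual (Equiv.Perm ℕ), g⁻¹ • y ∈ B Y i → g⁻¹ • z ∈ B Y i := by
    intro y z h i
    by_contra hcon
    have hcon' : ∃ᶠ g in residual (Equiv.Perm ℕ),
        g ∈ univ ∧ (g⁻¹ • y ∈ B Y i ∧ ¬ g⁻¹ • z ∈ B Y i) := by
      intro hn
      apply hcon
      filter_upwards [hn] with g hg h1
      by_contra h2
      exact hg ⟨mem_univ _, h1, h2⟩
    obtain ⟨W, hWo, hWn, -, hW⟩ := freq_open (p := fun g => g⁻¹ • y ∈ B Y i ∧ ¬ g⁻¹ • z ∈ B Y i)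
      ((hm y i).inter (hm z i).compl) isOpen_univ hcon'
    obtain ⟨n, a, ha, han⟩ := exists_N hWo hWn
    have h1 : code y (i, n) a := by
      refine ((freq_of_open (isOpen_N a) han).and_eventually hW).mono ?_
      rintro g ⟨h1, h2⟩
      exact ⟨h1, (h2 (ha h1)).1⟩
    have h2 : ¬ code z (i, n) a := by
      intro h2
      apply h2
      filter_upwards [hW] with g hg
      rintro ⟨h3, h4⟩
      exact (hg (ha h3)).2 h4
    exact h2 ((h (i, n) a).2 h1)
  have h1 : ∀ᶠ g in residual (Equiv.Perm ℕ), ∀ i, g⁻¹ • y ∈ B Y i ↔ g⁻¹ • z ∈ B Y i := by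
    rw [eventually_countable_forall]
    intro i
    filter_upwards [key y z h i, key z y (fun r a => (h r a).symm) i] with g h1 h2
    exact ⟨h1, h2⟩
  obtain ⟨g, hg⟩ := (dense_of_mem_residual h1).nonempty
  exact smul_left_cancel _ (eq_of_B hg)

theorem code_iff (hact : Measurable fun p : Equiv.Perm ℕ × Y => p.1 • p.2) (y z : Y) :
    Iso (code y) (code z) ↔ ∃ g : Equiv.Perm ℕ, g • y = z := by
  constructor
  · rintro ⟨π, hπ⟩
    refine ⟨π, ?_⟩
    have h1 : ∀ r a, code (π⁻¹ • z) r a ↔ code y r a := by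
      intro r a
      have h2 := code_smul π (π⁻¹ • z) r a
      rw [smul_inv_smul] at h2
      exact h2.symm.trans (hπ r a)
    have h2 := eq_of_code hact h1
    rw [h2, smul_inv_smul]
  · rintro ⟨g, rfl⟩
    exact ⟨g, fun r a => code_smul g y r a⟩

/-- generic ergodicity for actions of the group of permutations of `ℕ` -/
theorem erg_action (hact : Measurable fun p : Equiv.Perm ℕ × Y => p.1 • p.2)
    {ψ : (ℕ → ℝ) → Y} (hψ : Measurable ψ)
    (hinv : ∀ x y : ℕ → ℝ, Summable (fun n => |x n - y n|) → ∃ g : Equiv.Perm ℕ, g • ψ x = ψ y) :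
    ∃ C ∈ residual (ℕ → ℝ), ∀ x ∈ C, ∀ y ∈ C, ∃ g : Equiv.Perm ℕ, g • ψ x = ψ y := by
  have hHm : Hm (fun x => code (ψ x)) :=
    { meas := fun r a => hψ (measurable_code hact r a)
      inv := fun x y h => (code_iff hact _ _).2 (hinv x y h) }
  obtain ⟨C, hC, hCC⟩ := H468R2.MA.t_T_ERG
    (H468R2.MA.t_T_C H468R2.MA.t_T_SC (H468R2.MA.t_T_LOC H468R2.MA.t_T_SC
      (H468R2.MA.t_T_LOC1 H468R2.MA.t_T_SC))) H468R2.MA.t_T_CH _ _ _ hHm
  exact ⟨C, hC, fun x hx y hy => (code_iff hact _ _).1 (hCC x hx y hy)⟩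

end Pool.Agent.X219.Sinf
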