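import Pool.Agent.Helper281.Gr.Gen

/-!
The Polish group of permutations of `ℕ`.
-/

set_option autoImplicit false

open Set Filter Topology Function

namespace Pool.Agent.X219.Sinf

/-- the topology of pointwise convergence on the group of permutations of `ℕ` -/
@[reducible] def permTop : TopologicalSpace (Equiv.Perm ℕ) :=
  TopologicalSpace.induced (fun g : Equiv.Perm ℕ => (g : ℕ → ℕ)) inferInstance

/-- the Borel sets of the group of permutations of `ℕ` -/
@[reducible] def permBorel : MeasurableSpace (Equiv.Perm ℕ) := @borel (Equiv.Perm ℕ) permTop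

attribute [local instance] permTop permBorel

theorem borelSpace_perm : BorelSpace (Equiv.Perm ℕ) := ⟨rfl⟩

attribute [local instance] borelSpace_perm

theorem continuous_coe : Continuous fun g : Equiv.Perm ℕ => (g : ℕ → ℕ) := continuous_induced_dom

theorem continuous_at (i : ℕ) : Continuous fun g : Equiv.Perm ℕ => g i :=
  (continuous_apply i).comp continuous_coe

theorem isOpen_eq (i j : ℕ) : IsOpen {g : Equiv.Perm ℕ | g i = j} :=
  (isOpen_discrete {j}).preimage (continuous_at i)

theorem continuous_symm_at (i : ℕ) : Continuous fun g : Equiv.Perm ℕ => g.symm i := by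
  rw [continuous_discrete_rng]
  intro j
  have : (fun g : Equiv.Perm ℕ => g.symm i) ⁻¹' {j} = {g | g j = i} := by
    ext g
    simp only [mem_preimage, mem_singleton_iff, mem_ofPred_eq]
    rw [Equiv.symm_apply_eq, eq_comm]
  rw [this]
  exact isOpen_eq j i

theorem continuous_rng {X : Type} [TopologicalSpace X] {f : X → Equiv.Perm ℕ}
    (h : ∀ i, Continuous fun x => f x i) : Continuous f :=
  continuous_induced_rng.2 (continuous_pi h)

theorem continuous_inv' : Continuous fun g : Equiv.Perm ℕ => g⁻¹ :=
  continuous_rng fun i => continuous_symm_at i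

theorem continuous_mul_left' (h : Equiv.Perm ℕ) : Continuous fun g : Equiv.Perm ℕ => h * g :=
  continuous_rng fun i => (continuous_of_discreteTopology (f := h)).comp (continuous_at i)

/-- the embedding in a product -/
def emb (g : Equiv.Perm ℕ) : (ℕ → ℕ) × (ℕ → ℕ) := (g, g.symm)

theorem isClosedEmbedding_emb : IsClosedEmbedding emb := by
  have hc : Continuous emb := continuous_coe.prodMk (continuous_pi continuous_symm_at)
  refine ⟨⟨⟨?_⟩, ?_⟩, ?_⟩
  · apply le_antisymm
    · exact hc.le_induced
    · have h1 : @Continuous _ _ (TopologicalSpace.induced emb inferInstance) inferInstance emb :=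
        continuous_induced_dom
      have h2 : @Continuous _ _ (TopologicalSpace.induced emb inferInstance) inferInstance
          (Prod.fst ∘ emb) :=
        @Continuous.comp _ _ _ (TopologicalSpace.induced emb inferInstance) _ _ _ _
          continuous_fst h1
      exact continuous_iff_le_induced.1 h2
  · intro g h hgh
    exact Equiv.coe_fn_injective (congrArg Prod.fst hgh)
  · have hr : range emb = ⋂ i : ℕ, {p : (ℕ → ℕ) × (ℕ → ℕ) | p.1 (p.2 i) = i} ∩
        {p : (ℕ → ℕ) × (ℕ → ℕ) | p.2 (p.1 i) = i} := by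
      ext p
      simp only [mem_range, mem_iInter, mem_inter_iff, mem_ofPred_eq]
      constructor
      · rintro ⟨g, rfl⟩ i
        exact ⟨g.apply_symm_apply i, g.symm_apply_apply i⟩
      · intro h
        exact ⟨⟨p.1, p.2, fun i => (h i).2, fun i => (h i).1⟩, rfl⟩
    have hev : Continuous fun q : ℕ × (ℕ → ℕ) => q.2 q.1 :=
      continuous_prod_of_discrete_left.2 fun a => continuous_apply a
    rw [hr]
    refine isClosed_iInter fun i => IsClosed.inter ?_ ?_
    · have h0 : Continuous fun p : (ℕ → ℕ) × (ℕ → ℕ) => (p.2 i, p.1) :=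
        ((continuous_apply i).comp continuous_snd).prodMk continuous_fst
      have h1 : Continuous fun p : (ℕ → ℕ) × (ℕ → ℕ) => p.1 (p.2 i) := hev.comp h0
      exact isClosed_eq h1 continuous_const
    · have h0 : Continuous fun p : (ℕ → ℕ) × (ℕ → ℕ) => (p.1 i, p.2) :=
        ((continuous_apply i).comp continuous_fst).prodMk continuous_snd
      have h1 : Continuous fun p : (ℕ → ℕ) × (ℕ → ℕ) => p.2 (p.1 i) := hev.comp h0
      exact isClosed_eq h1 continuous_const

theorem polish_perm : PolishSpace (Equiv.Perm ℕ) := isClosedEmbedding_emb.polishSpace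

attribute [local instance] polish_perm

/-- the basic open sets -/
def N {n : ℕ} (a : Fin n → ℕ) : Set (Equiv.Perm ℕ) := {g | ∀ j : Fin n, g j = a j}

theorem isOpen_N {n : ℕ} (a : Fin n → ℕ) : IsOpen (N a) := by
  have : N a = ⋂ j : Fin n, {g : Equiv.Perm ℕ | g j = a j} := by
    ext g
    simp [N]
  rw [this]
  exact isOpen_iInter_of_finite fun j => isOpen_eq _ _

theorem exists_N {W : Set (Equiv.Perm ℕ)} (hW : IsOpen W) (hne : W.Nonempty) :
    ∃ (n : ℕ) (a : Fin n → ℕ), N a ⊆ W ∧ (N a).Nonempty := by
  obtain ⟨g, hg⟩ := hne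
  obtain ⟨V, hV, rfl⟩ := isOpen_induced_iff.1 hW
  have h1 : V ∈ 𝓝 (g : ℕ → ℕ) := hV.mem_nhds hg
  rw [nhds_pi, Filter.mem_pi] at h1
  obtain ⟨I, hI, t, ht, htV⟩ := h1
  obtain ⟨n, hn⟩ := hI.bddAbove
  refine ⟨n + 1, fun j => g j, ?_, ⟨g, fun j => rfl⟩⟩
  intro h hh
  apply htV
  intro i hi
  have h2 : h i = g i := hh ⟨i, by have := hn hi; omega⟩
  show h i ∈ t i
  rw [h2]
  exact mem_of_mem_nhds (ht i)

end Pool.Agent.X219.Sinf
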